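import Pool.Agent.H295R2.Beu.Defs

/-! # Task A5: the lower bound -/

set_option autoImplicit false

open MeasureTheory Filter Topology Set

namespace Pool.Agent.H497R2.LowB

open Pool.Agent.H295R2.Beu

theorem subst_inv (G : ℝ → ℝ) :
    ∫ x in (0:ℝ)..1, G x = ∫ v in Ioi (1:ℝ), v ^ (-2:ℝ) * G (1 / v) := by
  rw [intervalIntegral.integral_of_le zero_le_one, integral_Ioc_eq_integral_Ioo]
  have h := integral_comp_rpow_Ioi (fun y => (Ioo (0:ℝ) 1).indicator G y) (p := -1) (by norm_num)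
  have hs : Ioi (0:ℝ) ∩ Ioo 0 1 = Ioo 0 1 := by
    ext x; simp only [mem_inter_iff, mem_Ioi, mem_Ioo]; tauto
  rw [setIntegral_indicator measurableSet_Ioo, hs] at h
  rw [← h]
  have h2 : ∫ x in Ioi (0:ℝ), (|(-1:ℝ)| * x ^ ((-1:ℝ) - 1)) •
        (Ioo (0:ℝ) 1).indicator G (x ^ (-1:ℝ))
      = ∫ x in Ioi (0:ℝ), (Ioi (1:ℝ)).indicator (fun v => v ^ (-2:ℝ) * G (1 / v)) x := by
    apply setIntegral_congr_fun measurableSet_Ioi
    intro x hx
    have hx0 : (0:ℝ) < x := hx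
    have e1 : x ^ (-1:ℝ) = 1 / x := by rw [Real.rpow_neg_one, one_div]
    have e2 : (-1:ℝ) - 1 = -2 := by norm_num
    simp only [e1, e2, abs_neg, abs_one, one_mul, smul_eq_mul]
    by_cases hx1 : 1 < x
    · rw [indicator_of_mem (show 1 / x ∈ Ioo (0:ℝ) 1 from
          ⟨by positivity, by rw [div_lt_one hx0]; exact hx1⟩),
        indicator_of_mem (show x ∈ Ioi (1:ℝ) from hx1)]
    · rw [indicator_of_notMem, indicator_of_notMem, mul_zero]
      · exact hx1
      · rintro ⟨_, h4⟩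
        rw [div_lt_one hx0] at h4
        exact hx1 h4
  rw [h2, setIntegral_indicator measurableSet_Ioi]
  have hs2 : Ioi (0:ℝ) ∩ Ioi 1 = Ioi 1 := by
    ext x; simp only [mem_inter_iff, mem_Ioi]
    constructor
    · tauto
    · intro h; exact ⟨by linarith, h⟩
  rw [hs2]

/-- the function `∑ a_j {θ_j v}` -/
noncomputable def ff {m : ℕ} (a θ : Fin m → ℝ) (v : ℝ) : ℝ := ∑ j, a j * Int.fract (θ j * v)

noncomputable def gg {m : ℕ} (a θ : Fin m → ℝ) (v : ℝ) : ℝ := |1 - ff a θ v|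

theorem comb_inv {m : ℕ} (a θ : Fin m → ℝ) (v : ℝ) : comb a θ (1 / v) = ff a θ v := by
  unfold comb ff
  refine Finset.sum_congr rfl fun j _ => ?_
  rw [div_div_eq_mul_div, div_one]

theorem ff_meas {m : ℕ} (a θ : Fin m → ℝ) : Measurable (ff a θ) := by
  unfold ff
  apply Finset.measurable_fun_sum
  intro j _
  exact (measurable_fract.comp (measurable_const.mul measurable_id)).const_mul _

theorem gg_meas {m : ℕ} (a θ : Fin m → ℝ) : Measurable (gg a θ) := by
  unfold gg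
  have h := (measurable_const (a := (1:ℝ))).sub (ff_meas a θ)
  have h2 := h.norm
  simpa [Real.norm_eq_abs] using h2

theorem gg_nonneg {m : ℕ} (a θ : Fin m → ℝ) (v : ℝ) : 0 ≤ gg a θ v := abs_nonneg _

theorem gg_le {m : ℕ} (a θ : Fin m → ℝ) (v : ℝ) : gg a θ v ≤ 1 + ∑ j, |a j| := by
  unfold gg ff
  refine (abs_sub _ _).trans ?_
  rw [abs_one]
  gcongr
  refine (Finset.abs_sum_le_sum_abs _ _).trans ?_
  apply Finset.sum_le_sum
  intro j _
  rw [abs_mul, abs_of_nonneg (Int.fract_nonneg (θ j * v))]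
  exact mul_le_of_le_one_right (abs_nonneg _) (Int.fract_lt_one _).le

theorem rpow_int (a : ℝ) (ha : a < -1) : IntegrableOn (fun v : ℝ => v ^ a) (Ioi 1) :=
  integrableOn_Ioi_rpow_of_lt ha one_pos

theorem ker_int (hM : KerMeas) (s : ℂ) (N C : ℝ)
    (hk : ∀ v : ℝ, 0 < v → ‖ker s N v‖ ≤ C * N ^ (1 - s.re) * v ^ (-2 : ℝ)) :
    IntegrableOn (ker s N) (Ioi 1) := by
  refine Integrable.mono' ((rpow_int (-2) (by norm_num)).const_mul (C * N ^ (1 - s.re)))
    (hM s N).aestronglyMeasurable ?_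
  filter_upwards [ae_restrict_mem measurableSet_Ioi] with v hv
  exact hk v (lt_trans one_pos hv)

theorem fr_int (hM : KerMeas) (s : ℂ) (N C θ : ℝ)
    (hk : ∀ v : ℝ, 0 < v → ‖ker s N v‖ ≤ C * N ^ (1 - s.re) * v ^ (-2 : ℝ)) :
    IntegrableOn (fun v : ℝ => ((Int.fract (θ * v) : ℝ) : ℂ) * ker s N v) (Ioi 1) := by
  refine Integrable.mono' (ker_int hM s N C hk).norm ?_ ?_
  · refine AEStronglyMeasurable.mul ?_ (hM s N).aestronglyMeasurable
    exact (Complex.measurable_ofReal.comp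
      (measurable_fract.comp (measurable_const.mul measurable_id))).aestronglyMeasurable
  · refine Eventually.of_forall fun v => ?_
    rw [norm_mul, Complex.norm_real, Real.norm_eq_abs, abs_of_nonneg (Int.fract_nonneg _)]
    exact mul_le_of_le_one_left (norm_nonneg _) (Int.fract_lt_one _).le

theorem mass_le (hM : KerMeas) (s : ℂ) (N C : ℝ) (a0 : ℂ)
    (hk : ∀ v : ℝ, 0 < v → ‖ker s N v‖ ≤ C * N ^ (1 - s.re) * v ^ (-2 : ℝ))
    (hA : ∀ θ : ℝ, 1 / N ≤ θ → θ ≤ 1 →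
      ∫ v in Ioi (1:ℝ), ((Int.fract (θ * v) : ℝ) : ℂ) * ker s N v = a0 * θ)
    {m : ℕ} (a θ : Fin m → ℝ) (hθ : ∀ j, 1 / N ≤ θ j ∧ θ j ≤ 1) (h0 : ∑ j, a j * θ j = 0) :
    ‖∫ v in Ioi (1:ℝ), ker s N v‖ ≤ ∫ v in Ioi (1:ℝ), gg a θ v * ‖ker s N v‖ := by
  have h1 : ∫ v in Ioi (1:ℝ), ((ff a θ v : ℝ) : ℂ) * ker s N v = 0 := by
    have e1 : ∀ v : ℝ, ((ff a θ v : ℝ) : ℂ) * ker s N v =
        ∑ j, (a j : ℂ) * (((Int.fract (θ j * v) : ℝ) : ℂ) * ker s N v) := by
      intro v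
      unfold ff
      push_cast
      rw [Finset.sum_mul]
      refine Finset.sum_congr rfl fun j _ => ?_
      ring
    simp only [e1]
    rw [integral_finsetSum _ (fun j _ => (fr_int hM s N C (θ j) hk).const_mul _)]
    have e2 : ∀ j, ∫ v in Ioi (1:ℝ), (a j : ℂ) * (((Int.fract (θ j * v) : ℝ) : ℂ) * ker s N v)
        = a0 * ((a j * θ j : ℝ) : ℂ) := by
      intro j
      rw [integral_const_mul, hA _ (hθ j).1 (hθ j).2]
      push_cast; ring
    simp only [e2]
    rw [← Finset.mul_sum, ← Complex.ofReal_sum, h0]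
    simp
  have hI : IntegrableOn (fun v => ((ff a θ v : ℝ) : ℂ) * ker s N v) (Ioi 1) := by
    refine Integrable.mono' ((ker_int hM s N C hk).norm.const_mul (2 + ∑ j, |a j|)) ?_ ?_
    · exact ((Complex.measurable_ofReal.comp (ff_meas a θ)).aestronglyMeasurable).mul
        (hM s N).aestronglyMeasurable
    · refine Eventually.of_forall fun v => ?_
      rw [norm_mul, Complex.norm_real, Real.norm_eq_abs]
      apply mul_le_mul_of_nonneg_right _ (norm_nonneg _)
      have := gg_le a θ v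
      unfold gg at this
      have h3 : |ff a θ v| ≤ |1 - ff a θ v| + 1 := by
        have h4 := abs_sub_abs_le_abs_sub (ff a θ v) 1
        rw [abs_one, abs_sub_comm] at h4
        linarith
      linarith
  have h2 : ∫ v in Ioi (1:ℝ), ker s N v =
      ∫ v in Ioi (1:ℝ), ((1 - ff a θ v : ℝ) : ℂ) * ker s N v := by
    have e3 : ∀ v : ℝ, ((1 - ff a θ v : ℝ) : ℂ) * ker s N v =
        ker s N v - ((ff a θ v : ℝ) : ℂ) * ker s N v := by
      intro v; push_cast; ring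
    simp only [e3]
    rw [integral_sub (ker_int hM s N C hk) hI, h1, sub_zero]
  rw [h2]
  refine (norm_integral_le_integral_norm _).trans (le_of_eq ?_)
  apply integral_congr_ae
  refine Eventually.of_forall fun v => ?_
  simp only [norm_mul, Complex.norm_real, Real.norm_eq_abs]
  rfl

/-- the error integral in the variable `v` -/
theorem err_eq {m : ℕ} (a θ : Fin m → ℝ) (p γ : ℝ) :
    ∫ x in (0:ℝ)..1, |1 - comb a θ x| ^ p * x ^ γ =
      ∫ v in Ioi (1:ℝ), gg a θ v ^ p * v ^ (-(γ + 2)) := by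
  rw [subst_inv]
  apply setIntegral_congr_fun measurableSet_Ioi
  intro v hv
  have hv0 : (0:ℝ) < v := lt_trans one_pos hv
  simp only [comb_inv]
  rw [one_div, Real.inv_rpow hv0.le, ← Real.rpow_neg hv0.le]
  have : v ^ (-(γ + 2)) = v ^ (-2:ℝ) * v ^ (-γ) := by
    rw [← Real.rpow_add hv0]; congr 1; ring
  rw [this]
  unfold gg
  ring

theorem case_one (hM : KerMeas) (s : ℂ) (γ η N C : ℝ) (hγ : -1 < γ) (hγ0 : γ ≤ 0)
    (hη : 0 < η) (hN : 1 ≤ N) (hC : 0 < C)
    (hexp : 1 + γ - s.re < η)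
    (hk1 : ∀ v : ℝ, 0 < v → ‖ker s N v‖ ≤ C * v ^ (-s.re - 1))
    (hk : ∀ v : ℝ, 0 < v → ‖ker s N v‖ ≤ C * N ^ (1 - s.re) * v ^ (-2 : ℝ))
    {m : ℕ} (a θ : Fin m → ℝ) :
    ∫ v in Ioi (1:ℝ), gg a θ v * ‖ker s N v‖ ≤
      C * N ^ η * ∫ v in Ioi (1:ℝ), gg a θ v ^ (1:ℝ) * v ^ (-(γ + 2)) := by
  rw [← integral_const_mul]
  have hN0 : 0 < N := by linarith
  have hint : IntegrableOn (fun v => C * N ^ η * (gg a θ v ^ (1:ℝ) * v ^ (-(γ + 2)))) (Ioi 1) := by
    apply Integrable.const_mul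
    refine Integrable.mono' ((rpow_int (-(γ + 2)) (by linarith)).const_mul (1 + ∑ j, |a j|)) ?_ ?_
    · refine Measurable.aestronglyMeasurable ?_
      exact ((gg_meas a θ).pow_const _).mul (measurable_id.pow_const _)
    · filter_upwards [ae_restrict_mem measurableSet_Ioi] with v hv
      have hv0 : (0:ℝ) < v := lt_trans one_pos hv
      rw [Real.rpow_one, Real.norm_eq_abs, abs_of_nonneg (mul_nonneg (gg_nonneg _ _ _)
        (Real.rpow_nonneg hv0.le _))]
      exact mul_le_mul_of_nonneg_right (gg_le a θ v) (Real.rpow_nonneg hv0.le _)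
  have key : ∀ v ∈ Ioi (1:ℝ), gg a θ v * ‖ker s N v‖ ≤
      C * N ^ η * (gg a θ v ^ (1:ℝ) * v ^ (-(γ + 2))) := by
    intro v hv
    have hv1 : (1:ℝ) < v := hv
    have hv0 : (0:ℝ) < v := lt_trans one_pos hv
    have h1 : ‖ker s N v‖ ≤ C * N ^ η * v ^ (-(γ + 2)) := by
      rcases le_total v N with h | h
      · have e1 : v ^ (-s.re - 1) = v ^ (1 + γ - s.re) * v ^ (-(γ + 2)) := by
          rw [← Real.rpow_add hv0]; congr 1; ring
        have e2 : v ^ (1 + γ - s.re) ≤ N ^ η :=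
          (Real.rpow_le_rpow_of_exponent_le hv1.le hexp.le).trans
            (Real.rpow_le_rpow hv0.le h hη.le)
        calc ‖ker s N v‖ ≤ C * v ^ (-s.re - 1) := hk1 v hv0
          _ = C * v ^ (1 + γ - s.re) * v ^ (-(γ + 2)) := by rw [e1]; ring
          _ ≤ C * N ^ η * v ^ (-(γ + 2)) := by gcongr
      · have e1 : v ^ (-2:ℝ) = v ^ γ * v ^ (-(γ + 2)) := by
          rw [← Real.rpow_add hv0]; congr 1; ring
        have e2 : v ^ γ ≤ N ^ γ := Real.rpow_le_rpow_of_nonpos hN0 h hγ0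
        have e3 : N ^ (1 - s.re) * N ^ γ ≤ N ^ η := by
          rw [← Real.rpow_add hN0]
          exact Real.rpow_le_rpow_of_exponent_le hN (by linarith)
        calc ‖ker s N v‖ ≤ C * N ^ (1 - s.re) * v ^ (-2:ℝ) := hk v hv0
          _ = C * (N ^ (1 - s.re) * v ^ γ) * v ^ (-(γ + 2)) := by rw [e1]; ring
          _ ≤ C * (N ^ (1 - s.re) * N ^ γ) * v ^ (-(γ + 2)) := by gcongr
          _ ≤ C * N ^ η * v ^ (-(γ + 2)) := by gcongr
    calc gg a θ v * ‖ker s N v‖ ≤ gg a θ v * (C * N ^ η * v ^ (-(γ + 2))) :=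
          mul_le_mul_of_nonneg_left h1 (gg_nonneg _ _ _)
      _ = C * N ^ η * (gg a θ v ^ (1:ℝ) * v ^ (-(γ + 2))) := by rw [Real.rpow_one]; ring
  have hint0 : IntegrableOn (fun v => gg a θ v * ‖ker s N v‖) (Ioi 1) := by
    refine Integrable.mono' hint ?_ ?_
    · exact (gg_meas a θ).aestronglyMeasurable.mul (hM s N).norm.aestronglyMeasurable
    · filter_upwards [ae_restrict_mem measurableSet_Ioi] with v hv
      rw [Real.norm_eq_abs, abs_of_nonneg (mul_nonneg (gg_nonneg _ _ _) (norm_nonneg _))]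
      exact key v hv
  exact setIntegral_mono_on hint0 hint measurableSet_Ioi key

/-- the second Hölder factor -/
theorem factor_two (k : ℝ → ℝ) (hkm : Measurable k) (hk0 : ∀ v, 0 ≤ k v) (β γ q N C e : ℝ)
    (hN : 1 ≤ N) (hC : 0 < C) (hq : 1 < q) (he : 0 < e)
    (hexp : q * (1 - β + γ) - γ - 1 ≤ e) (hγq : γ * (q - 1) < 1)
    (hk1 : ∀ v : ℝ, 0 < v → k v ≤ C * v ^ (-β - 1))
    (hk2 : ∀ v : ℝ, 0 < v → k v ≤ C * N ^ (1 - β) * v ^ (-2 : ℝ)) :
    IntegrableOn (fun v => k v ^ q * v ^ ((γ + 2) * (q - 1))) (Ioi 1) ∧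
    ∫ v in Ioi (1:ℝ), k v ^ q * v ^ ((γ + 2) * (q - 1)) ≤
      C ^ q * (1 / e + 1 / (1 - γ * (q - 1))) * N ^ e := by
  have hN0 : 0 < N := by linarith
  have hq0 : 0 < q := by linarith
  set H : ℝ → ℝ := fun v => k v ^ q * v ^ ((γ + 2) * (q - 1)) with hH
  have hHm : Measurable H := (hkm.pow_const _).mul (measurable_id.pow_const _)
  have hH0 : ∀ v, 0 < v → 0 ≤ H v := fun v hv =>
    mul_nonneg (Real.rpow_nonneg (hk0 v) _) (Real.rpow_nonneg hv.le _)
  have b1 : ∀ v, 1 ≤ v → H v ≤ C ^ q * v ^ (e - 1) := by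
    intro v hv
    have hv0 : 0 < v := by linarith
    calc H v ≤ (C * v ^ (-β - 1)) ^ q * v ^ ((γ + 2) * (q - 1)) := by
          apply mul_le_mul_of_nonneg_right _ (Real.rpow_nonneg hv0.le _)
          exact Real.rpow_le_rpow (hk0 v) (hk1 v hv0) hq0.le
      _ = C ^ q * (v ^ ((-β - 1) * q) * v ^ ((γ + 2) * (q - 1))) := by
          rw [Real.mul_rpow hC.le (Real.rpow_nonneg hv0.le _), ← Real.rpow_mul hv0.le]; ring
      _ = C ^ q * v ^ (q * (1 - β + γ) - γ - 2) := by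
          rw [← Real.rpow_add hv0]; congr 2; ring
      _ ≤ C ^ q * v ^ (e - 1) := by
          apply mul_le_mul_of_nonneg_left _ (Real.rpow_nonneg hC.le _)
          exact Real.rpow_le_rpow_of_exponent_le hv (by linarith)
  have b2 : ∀ v, 0 < v → H v ≤ C ^ q * N ^ ((1 - β) * q) * v ^ (γ * (q - 1) - 2) := by
    intro v hv0
    calc H v ≤ (C * N ^ (1 - β) * v ^ (-2 : ℝ)) ^ q * v ^ ((γ + 2) * (q - 1)) := by
          apply mul_le_mul_of_nonneg_right _ (Real.rpow_nonneg hv0.le _)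
          exact Real.rpow_le_rpow (hk0 v) (hk2 v hv0) hq0.le
      _ = C ^ q * N ^ ((1 - β) * q) * (v ^ ((-2) * q) * v ^ ((γ + 2) * (q - 1))) := by
          rw [Real.mul_rpow (by positivity) (Real.rpow_nonneg hv0.le _),
            Real.mul_rpow hC.le (Real.rpow_nonneg hN0.le _), ← Real.rpow_mul hv0.le,
            ← Real.rpow_mul hN0.le]
          ring
      _ = C ^ q * N ^ ((1 - β) * q) * v ^ (γ * (q - 1) - 2) := by
          rw [← Real.rpow_add hv0]; congr 2; ring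
  have ib2 : IntegrableOn (fun v : ℝ => C ^ q * N ^ ((1 - β) * q) * v ^ (γ * (q - 1) - 2))
      (Ioi 1) := (rpow_int _ (by linarith)).const_mul _
  have hHi : IntegrableOn H (Ioi 1) := by
    refine Integrable.mono' ib2 hHm.aestronglyMeasurable ?_
    filter_upwards [ae_restrict_mem measurableSet_Ioi] with v hv
    have hv0 : (0:ℝ) < v := lt_trans one_pos hv
    rw [Real.norm_eq_abs, abs_of_nonneg (hH0 v hv0)]
    exact b2 v hv0
  refine ⟨hHi, ?_⟩
  have hsplit : ∫ v in Ioi (1:ℝ), H v = (∫ v in Ioc (1:ℝ) N, H v) + ∫ v in Ioi N, H v := by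
    rw [← setIntegral_union (Set.Ioc_disjoint_Ioi le_rfl) measurableSet_Ioi
      (hHi.mono_set Ioc_subset_Ioi_self) (hHi.mono_set (Ioi_subset_Ioi hN)),
      Ioc_union_Ioi_eq_Ioi hN]
  have ie : IntervalIntegrable (fun v : ℝ => v ^ (e - 1)) volume 1 N :=
    intervalIntegral.intervalIntegrable_rpow' (by linarith)
  have p1 : ∫ v in Ioc (1:ℝ) N, H v ≤ C ^ q * (1 / e) * N ^ e := by
    have ie2 : IntegrableOn (fun v : ℝ => C ^ q * v ^ (e - 1)) (Ioc 1 N) :=
      ((intervalIntegrable_iff_integrableOn_Ioc_of_le hN).1 ie).const_mul _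
    calc ∫ v in Ioc (1:ℝ) N, H v ≤ ∫ v in Ioc (1:ℝ) N, C ^ q * v ^ (e - 1) :=
          setIntegral_mono_on (hHi.mono_set Ioc_subset_Ioi_self) ie2 measurableSet_Ioc
            (fun v hv => b1 v hv.1.le)
      _ = C ^ q * ((N ^ e - 1) / e) := by
          rw [integral_const_mul, ← intervalIntegral.integral_of_le hN,
            integral_rpow (Or.inl (by linarith))]
          simp
      _ ≤ C ^ q * (1 / e) * N ^ e := by
          have : (N ^ e - 1) / e ≤ (1 / e) * N ^ e := by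
            rw [div_le_iff₀ he]; field_simp; linarith
          calc C ^ q * ((N ^ e - 1) / e) ≤ C ^ q * ((1 / e) * N ^ e) :=
                mul_le_mul_of_nonneg_left this (Real.rpow_nonneg hC.le _)
            _ = _ := by ring
  have p2 : ∫ v in Ioi N, H v ≤ C ^ q * (1 / (1 - γ * (q - 1))) * N ^ e := by
    have hd : 0 < 1 - γ * (q - 1) := by linarith
    calc ∫ v in Ioi N, H v ≤
          ∫ v in Ioi N, C ^ q * N ^ ((1 - β) * q) * v ^ (γ * (q - 1) - 2) :=
          setIntegral_mono_on (hHi.mono_set (Ioi_subset_Ioi hN))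
            (ib2.mono_set (Ioi_subset_Ioi hN)) measurableSet_Ioi
            (fun v hv => b2 v (lt_trans hN0 hv))
      _ = C ^ q * N ^ ((1 - β) * q) * (-N ^ (γ * (q - 1) - 2 + 1) / (γ * (q - 1) - 2 + 1)) := by
          rw [integral_const_mul, integral_Ioi_rpow_of_lt (by linarith) hN0]
      _ = C ^ q * (1 / (1 - γ * (q - 1))) * (N ^ ((1 - β) * q) * N ^ (γ * (q - 1) - 1)) := by
          rw [show γ * (q - 1) - 2 + 1 = -(1 - γ * (q - 1)) by ring,
            show γ * (q - 1) - 1 = -(1 - γ * (q - 1)) by ring, neg_div_neg_eq]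
          field_simp
      _ ≤ C ^ q * (1 / (1 - γ * (q - 1))) * N ^ e := by
          apply mul_le_mul_of_nonneg_left _ (by positivity)
          rw [← Real.rpow_add hN0]
          exact Real.rpow_le_rpow_of_exponent_le hN (by linarith)
  rw [hsplit]
  calc _ ≤ C ^ q * (1 / e) * N ^ e + C ^ q * (1 / (1 - γ * (q - 1))) * N ^ e := add_le_add p1 p2
    _ = _ := by ring

theorem case_p (hM : KerMeas) (s : ℂ) (p γ η N C : ℝ) (hp : 1 < p) (hγ : -1 < γ)
    (hγp : γ < p - 1) (hη : 0 < η) (hN : 1 ≤ N) (hC : 0 < C)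
    (hexp : (1 + γ) / p - s.re < η)
    (hk1 : ∀ v : ℝ, 0 < v → ‖ker s N v‖ ≤ C * v ^ (-s.re - 1))
    (hk : ∀ v : ℝ, 0 < v → ‖ker s N v‖ ≤ C * N ^ (1 - s.re) * v ^ (-2 : ℝ))
    {m : ℕ} (a θ : Fin m → ℝ) :
    ∫ v in Ioi (1:ℝ), gg a θ v * ‖ker s N v‖ ≤
      (∫ v in Ioi (1:ℝ), gg a θ v ^ p * v ^ (-(γ + 2))) ^ (1 / p) *
      (C * (1 / (η * (p / (p - 1))) + 1 / (1 - γ * (p / (p - 1) - 1))) ^ (1 / (p / (p - 1))) *
        N ^ η) := by
  have hN0 : 0 < N := by linarith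
  have hp0 : 0 < p := by linarith
  have hp1 : 0 < p - 1 := by linarith
  set q := p / (p - 1) with hq
  have hpq : p.HolderConjugate q := (Real.holderConjugate_iff_eq_conjExponent hp).2 hq
  have hq1 : 1 < q := by rw [hq, one_lt_div hp1]; linarith
  have hq0 : 0 < q := by linarith
  have hqq : q - 1 = 1 / (p - 1) := by rw [hq]; field_simp; ring
  have hqp : q / p = q - 1 := by rw [hqq, hq]; field_simp
  have hγq : γ * (q - 1) < 1 := by
    rw [hqq, mul_one_div, div_lt_one hp1]; exact hγp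
  have hexp2 : q * (1 - s.re + γ) - γ - 1 ≤ η * q := by
    have h1 : q * ((1 + γ) / p) = (q - 1) * (1 + γ) := by rw [← hqp]; ring
    have h2 : q * ((1 + γ) / p - s.re) ≤ q * η := mul_le_mul_of_nonneg_left hexp.le hq0.le
    rw [mul_sub, h1] at h2
    linarith
  set F1 : ℝ → ℝ := fun v => gg a θ v * |v| ^ (-(γ + 2) / p) with hF1
  set F2 : ℝ → ℝ := fun v => ‖ker s N v‖ * |v| ^ ((γ + 2) / p) with hF2
  have m1 : Measurable F1 := (gg_meas a θ).mul ((measurable_id.abs).pow_const _)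
  have m2 : Measurable F2 := ((hM s N).norm.measurable).mul ((measurable_id.abs).pow_const _)
  have n1 : ∀ v, 0 ≤ F1 v := fun v => mul_nonneg (gg_nonneg _ _ _) (Real.rpow_nonneg (abs_nonneg _) _)
  have n2 : ∀ v, 0 ≤ F2 v := fun v => mul_nonneg (norm_nonneg _) (Real.rpow_nonneg (abs_nonneg _) _)
  have f1 : ∀ v, 0 < v → F1 v ^ p = gg a θ v ^ p * v ^ (-(γ + 2)) := by
    intro v hv
    simp only [hF1]
    rw [abs_of_pos hv, Real.mul_rpow (gg_nonneg _ _ _) (Real.rpow_nonneg hv.le _),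
      ← Real.rpow_mul hv.le, div_mul_cancel₀ _ hp0.ne']
  have f2 : ∀ v, 0 < v → F2 v ^ q = ‖ker s N v‖ ^ q * v ^ ((γ + 2) * (q - 1)) := by
    intro v hv
    simp only [hF2]
    rw [abs_of_pos hv, Real.mul_rpow (norm_nonneg _) (Real.rpow_nonneg hv.le _),
      ← Real.rpow_mul hv.le, ← hqp]
    congr 2
    ring
  obtain ⟨i2, I2⟩ := factor_two (fun v => ‖ker s N v‖) (hM s N).norm.measurable
    (fun v => norm_nonneg _) s.re γ q N C (η * q) hN hC hq1 (by positivity) hexp2 hγq hk1 hk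
  have i1 : IntegrableOn (fun v => gg a θ v ^ p * v ^ (-(γ + 2))) (Ioi 1) := by
    refine Integrable.mono' ((rpow_int (-(γ + 2)) (by linarith)).const_mul
      ((1 + ∑ j, |a j|) ^ p)) ?_ ?_
    · refine Measurable.aestronglyMeasurable ?_
      exact ((gg_meas a θ).pow_const _).mul (measurable_id.pow_const _)
    · filter_upwards [ae_restrict_mem measurableSet_Ioi] with v hv
      have hv0 : (0:ℝ) < v := lt_trans one_pos hv
      rw [Real.norm_eq_abs, abs_of_nonneg (mul_nonneg (Real.rpow_nonneg (gg_nonneg _ _ _) _)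
        (Real.rpow_nonneg hv0.le _))]
      exact mul_le_mul_of_nonneg_right (Real.rpow_le_rpow (gg_nonneg _ _ _) (gg_le a θ v) hp0.le)
        (Real.rpow_nonneg hv0.le _)
  have L1 : MemLp F1 (ENNReal.ofReal p) (volume.restrict (Ioi 1)) := by
    rw [← integrable_norm_rpow_iff m1.aestronglyMeasurable (by simpa using hp0)
      ENNReal.ofReal_ne_top, ENNReal.toReal_ofReal hp0.le]
    refine i1.congr ?_
    filter_upwards [ae_restrict_mem measurableSet_Ioi] with v hv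
    rw [Real.norm_eq_abs, abs_of_nonneg (n1 v), f1 v (lt_trans one_pos hv)]
  have L2 : MemLp F2 (ENNReal.ofReal q) (volume.restrict (Ioi 1)) := by
    rw [← integrable_norm_rpow_iff m2.aestronglyMeasurable (by simpa using hq0)
      ENNReal.ofReal_ne_top, ENNReal.toReal_ofReal hq0.le]
    refine i2.congr ?_
    filter_upwards [ae_restrict_mem measurableSet_Ioi] with v hv
    rw [Real.norm_eq_abs, abs_of_nonneg (n2 v), f2 v (lt_trans one_pos hv)]
  have hH := integral_mul_le_Lp_mul_Lq_of_nonneg hpq (Eventually.of_forall n1)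
    (Eventually.of_forall n2) L1 L2
  have e0 : ∫ v in Ioi (1:ℝ), F1 v * F2 v = ∫ v in Ioi (1:ℝ), gg a θ v * ‖ker s N v‖ := by
    apply setIntegral_congr_fun measurableSet_Ioi
    intro v hv
    have hv0 : (0:ℝ) < v := lt_trans one_pos hv
    simp only [hF1, hF2]
    rw [abs_of_pos hv0]
    have : v ^ (-(γ + 2) / p) * v ^ ((γ + 2) / p) = 1 := by
      rw [← Real.rpow_add hv0, neg_div, neg_add_cancel, Real.rpow_zero]
    calc _ = gg a θ v * ‖ker s N v‖ * (v ^ (-(γ + 2) / p) * v ^ ((γ + 2) / p)) := by ring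
      _ = _ := by rw [this, mul_one]
  have e1 : ∫ v in Ioi (1:ℝ), F1 v ^ p = ∫ v in Ioi (1:ℝ), gg a θ v ^ p * v ^ (-(γ + 2)) :=
    setIntegral_congr_fun measurableSet_Ioi fun v hv => f1 v (lt_trans one_pos hv)
  have e2 : ∫ v in Ioi (1:ℝ), F2 v ^ q =
      ∫ v in Ioi (1:ℝ), ‖ker s N v‖ ^ q * v ^ ((γ + 2) * (q - 1)) :=
    setIntegral_congr_fun measurableSet_Ioi fun v hv => f2 v (lt_trans one_pos hv)
  rw [e0, e1, e2] at hH
  refine hH.trans ?_
  apply mul_le_mul_of_nonneg_left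
  · have hK : 0 ≤ 1 / (η * q) + 1 / (1 - γ * (q - 1)) := by
      have : 0 < 1 - γ * (q - 1) := by linarith
      positivity
    calc _ ≤ (C ^ q * (1 / (η * q) + 1 / (1 - γ * (q - 1))) * N ^ (η * q)) ^ (1 / q) := by
          apply Real.rpow_le_rpow _ I2 (by positivity)
          apply setIntegral_nonneg measurableSet_Ioi
          intro v hv
          have hv0 : (0:ℝ) < v := lt_trans one_pos hv
          positivity
      _ = _ := by
          rw [Real.mul_rpow (by positivity) (Real.rpow_nonneg hN0.le _),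
            Real.mul_rpow (Real.rpow_nonneg hC.le _) hK, ← Real.rpow_mul hC.le,
            ← Real.rpow_mul hN0.le, mul_one_div_cancel hq0.ne', Real.rpow_one,
            mul_assoc η q (1 / q), mul_one_div_cancel hq0.ne', mul_one]
  · apply Real.rpow_nonneg
    apply setIntegral_nonneg measurableSet_Ioi
    intro v hv
    have hv0 : (0:ℝ) < v := lt_trans one_pos hv
    have := gg_nonneg a θ v
    positivity

theorem lowerB_of (hM : KerMeas) (hB : KerBound) (hA : KerAnn) (hC : KerMass) : LowerB := by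
  intro p γ hp hγ hγp s hs0 hs1 hz η hη hexp
  obtain ⟨C, hC0, hCb⟩ := hB s hs0 hs1
  obtain ⟨c0, hc0, N0, hN0, hmass⟩ := hC s hs0 hs1
  obtain ⟨N1, hN1⟩ := exists_nat_ge N0
  have hN1r : (1:ℝ) ≤ N1 := hN0.trans hN1
  -- the constant
  obtain ⟨D, hD, hmain⟩ : ∃ D : ℝ, 0 < D ∧ ∀ N : ℕ, N1 ≤ N → ∀ (m : ℕ) (a θ : Fin m → ℝ),
      (∀ j, (1 / (N:ℝ)) ≤ θ j ∧ θ j ≤ 1) → ∑ j, a j * θ j = 0 →
      c0 ≤ (∫ x in (0:ℝ)..1, |1 - comb a θ x| ^ p * x ^ γ) ^ (1 / p) * (D * (N:ℝ) ^ η) := by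
    rcases hp.eq_or_lt with hp1 | hp1
    · -- p = 1
      subst hp1
      have hγ0 : γ ≤ 0 := by rcases hγp with h | h <;> linarith
      refine ⟨C, hC0, fun N hN m a θ hθ h0 => ?_⟩
      have hNr : N0 ≤ (N:ℝ) := hN1.trans (by exact_mod_cast hN)
      have hNr1 : (1:ℝ) ≤ N := hN0.trans hNr
      obtain ⟨a0, ha0⟩ := hA s hs0 hs1 hz N hNr1
      have h1 := mass_le hM s N C a0 (fun v hv => (hCb N hNr1 v hv).2) ha0 a θ hθ h0
      have h2 := case_one hM s γ η N C hγ hγ0 hη hNr1 hC0 (by simpa using hexp)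
        (fun v hv => (hCb N hNr1 v hv).1) (fun v hv => (hCb N hNr1 v hv).2) a θ
      rw [← err_eq] at h2
      calc c0 ≤ _ := hmass N hNr
        _ ≤ _ := h1.trans h2
        _ = _ := by rw [div_one, Real.rpow_one ((∫ x in (0:ℝ)..1, _))]; ring
    · have hγp' : γ < p - 1 := by rcases hγp with h | h <;> linarith
      have hp1' : 0 < p - 1 := by linarith
      have hKpos : 0 < 1 / (η * (p / (p - 1))) + 1 / (1 - γ * (p / (p - 1) - 1)) := by
        have h3 : p / (p - 1) - 1 = 1 / (p - 1) := by field_simp; ring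
        have : 0 < 1 - γ * (p / (p - 1) - 1) := by
          rw [h3, mul_one_div, sub_pos, div_lt_one hp1']; exact hγp'
        positivity
      refine ⟨C * (1 / (η * (p / (p - 1))) + 1 / (1 - γ * (p / (p - 1) - 1))) ^
        (1 / (p / (p - 1))), by positivity, fun N hN m a θ hθ h0 => ?_⟩
      have hNr : N0 ≤ (N:ℝ) := hN1.trans (by exact_mod_cast hN)
      have hNr1 : (1:ℝ) ≤ N := hN0.trans hNr
      obtain ⟨a0, ha0⟩ := hA s hs0 hs1 hz N hNr1
      have h1 := mass_le hM s N C a0 (fun v hv => (hCb N hNr1 v hv).2) ha0 a θ hθ h0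
      have h2 := case_p hM s p γ η N C hp1 hγ hγp' hη hNr1 hC0 hexp
        (fun v hv => (hCb N hNr1 v hv).1) (fun v hv => (hCb N hNr1 v hv).2) a θ
      rw [← err_eq] at h2
      exact (hmass N hNr).trans (h1.trans h2)
  have hN1pos : (0:ℝ) < N1 := by linarith
  refine ⟨c0 / D * (N1:ℝ) ^ (-η), by positivity, fun N hN m a θ hθ h0 => ?_⟩
  have hNr1 : (1:ℝ) ≤ N := by exact_mod_cast hN
  have hNpos : (0:ℝ) < N := by linarith
  have fin : ∀ N' : ℕ, 1 ≤ N' → c0 ≤ (∫ x in (0:ℝ)..1, |1 - comb a θ x| ^ p * x ^ γ) ^ (1 / p) *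
      (D * (N':ℝ) ^ η) →
      c0 / D * (N':ℝ) ^ (-η) ≤ (∫ x in (0:ℝ)..1, |1 - comb a θ x| ^ p * x ^ γ) ^ (1 / p) := by
    intro N' hN' h
    have hp' : (0:ℝ) < N' := by exact_mod_cast hN'
    rw [Real.rpow_neg hp'.le, div_mul_eq_mul_div, ← div_eq_mul_inv, div_div, div_le_iff₀ (by positivity)]
    calc c0 ≤ _ := h
      _ = _ := by ring
  rcases le_total N1 N with h | h
  · have h1 := fin N hN (hmain N h m a θ hθ h0)
    refine le_trans ?_ h1
    apply mul_le_mul_of_nonneg_right _ (Real.rpow_nonneg hNpos.le _)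
    have : (N1:ℝ) ^ (-η) ≤ 1 := Real.rpow_le_one_of_one_le_of_nonpos hN1r (by linarith)
    calc c0 / D * (N1:ℝ) ^ (-η) ≤ c0 / D * 1 := by gcongr
      _ = c0 / D := mul_one _
  · have hN1n : 1 ≤ N1 := by exact_mod_cast hN1r
    have hθ' : ∀ j, (1 / (N1:ℝ)) ≤ θ j ∧ θ j ≤ 1 := by
      intro j
      refine ⟨le_trans ?_ (hθ j).1, (hθ j).2⟩
      apply one_div_le_one_div_of_le hNpos
      exact_mod_cast h
    have h1 := fin N1 hN1n (hmain N1 le_rfl m a θ hθ' h0)
    refine le_trans ?_ h1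
    have : (N:ℝ) ^ (-η) ≤ 1 := Real.rpow_le_one_of_one_le_of_nonpos hNr1 (by linarith)
    calc c0 / D * (N1:ℝ) ^ (-η) * (N:ℝ) ^ (-η) ≤ c0 / D * (N1:ℝ) ^ (-η) * 1 := by gcongr
      _ = _ := mul_one _

end Pool.Agent.H497R2.LowB
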